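import Pool.Agent.H28.LF.T3
import Pool.Agent.H67.AG.T4

/-!
Project LF (`MP_c59857_nt`), row ENX: equality of the symbols has no positive mass in the product
of the process with itself.
-/

set_option autoImplicit false

open MeasureTheory ProbabilityTheory Filter Topology Finset
open scoped Nat ENNReal

namespace Pool.Agent.H55.LF

open Pool.Agent.H28.LF
open Pool.Agent.H67.AG (JJ TT triv)

theorem pf_ENX (hE : T_EQB) (hJ : Pool.Agent.H67.AG.T_JT) : T_ENX := by
  intro c hc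
  obtain ⟨hm, hinv, heq, -⟩ := hE c
  unfold Ux.CP at hc
  rw [hJ c.X c.μ] at hc
  have hne : (c.μ.prod c.μ) c.Eqv ≠ 0 := by
    intro h0
    rw [measureReal_def, h0] at hc
    simp at hc
  have hx : ∃ x, c.μ (Prod.mk x ⁻¹' c.Eqv) ≠ 0 := by
    by_contra hcon
    push Not at hcon
    exact hne ((Measure.measure_prod_null hm).2 (Eventually.of_forall hcon))
  obtain ⟨x, hx⟩ := hx
  have hstep : ∀ u v, (c.T u, c.T v) ∈ c.Eqv ↔ (u, v) ∈ c.Eqv := by
    intro u v
    have h : (u, v) ∈ (TT c.T) ⁻¹' c.Eqv ↔ (u, v) ∈ c.Eqv := by rw [hinv]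
    exact h
  have hit : ∀ (n : ℕ) u v, (c.T^[n] u, c.T^[n] v) ∈ c.Eqv ↔ (u, v) ∈ c.Eqv := by
    intro n
    induction n with
    | zero => intro u v; rfl
    | succ n ih =>
      intro u v
      rw [Function.iterate_succ_apply, Function.iterate_succ_apply, ih, hstep]
  set s : ℕ → Set c.X := fun n => Prod.mk (c.T^[n] x) ⁻¹' c.Eqv with hs
  have hsm : ∀ n, MeasurableSet (s n) := fun n => measurable_prodMk_left hm
  have hmp : MeasurePreserving c.T c.μ c.μ := c.erg.toMeasurePreserving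
  have hsn : ∀ n, c.μ (s n) = c.μ (Prod.mk x ⁻¹' c.Eqv) := by
    intro n
    rw [← (hmp.iterate n).measure_preimage (hsm n).nullMeasurableSet]
    congr 1
    ext y
    exact hit n x y
  have hsum : c.μ (Set.univ : Set c.X) < ∑' i, c.μ (s i) := by
    have : ∑' i, c.μ (s i) = ⊤ := by
      simp_rw [hsn]
      exact ENNReal.tsum_const_eq_top_of_ne_zero hx
    rw [this, measure_univ]
    exact ENNReal.one_lt_top
  obtain ⟨i, j, hij, z, hzi, hzj⟩ := exists_nonempty_inter_of_measure_univ_lt_tsum_measure c.μ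
    (fun i => (hsm i).nullMeasurableSet) hsum
  have hsymm : ∀ u v, (u, v) ∈ c.Eqv → (v, u) ∈ c.Eqv := fun u v => (heq u v u).2.1
  have htr : ∀ u v w, (u, v) ∈ c.Eqv → (v, w) ∈ c.Eqv → (u, w) ∈ c.Eqv :=
    fun u v w => (heq u v w).2.2
  -- a return time
  obtain ⟨r, hr, hxr⟩ : ∃ r : ℕ, 0 < r ∧ (x, c.T^[r] x) ∈ c.Eqv := by
    have hz : ∀ i j : ℕ, i < j → z ∈ s i → z ∈ s j → ∃ r : ℕ, 0 < r ∧ (x, c.T^[r] x) ∈ c.Eqv := by
      intro i j hij hi hj
      refine ⟨j - i, by omega, ?_⟩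
      have h1 : (c.T^[i] x, c.T^[j] x) ∈ c.Eqv := htr _ z _ hi (hsymm _ _ hj)
      have h2 : j = i + (j - i) := by omega
      rw [h2, Function.iterate_add_apply, hit] at h1
      exact h1
    rcases lt_or_gt_of_ne hij with h | h
    · exact hz i j h hzi hzj
    · exact hz j i h hzj hzi
  set F : Set c.X := {y | (y, c.T^[r] y) ∈ c.Eqv} with hF
  have hFm : MeasurableSet F := by
    have h1 : Measurable fun y => (y, c.T^[r] y) :=
      measurable_id.prodMk (c.T.measurable.iterate r)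
    exact h1 hm
  have hFi : c.T ⁻¹' F = F := by
    ext y
    have : (c.T y, c.T^[r] (c.T y)) ∈ c.Eqv ↔ (y, c.T^[r] y) ∈ c.Eqv := by
      rw [← Function.iterate_succ_apply, Function.iterate_succ_apply', hstep]
    exact this
  have hFx : Prod.mk x ⁻¹' c.Eqv ⊆ F := by
    intro y hy
    have h1 : (x, y) ∈ c.Eqv := hy
    have h2 : (c.T^[r] x, c.T^[r] y) ∈ c.Eqv := (hit r x y).2 h1
    exact htr _ _ _ (hsymm _ _ h1) (htr _ _ _ hxr h2)
  have hF0 : c.μ F ≠ 0 := fun h => hx (measure_mono_null hFx h)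
  refine c.np r hr ?_
  rcases c.erg.ae_empty_or_univ hFm hFi with h | h
  · exact absurd (ae_eq_empty.1 h) hF0
  · rw [eventuallyEq_univ] at h
    filter_upwards [h] with y hy
    exact ((hy 0).1).symm

end Pool.Agent.H55.LF
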