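import Pool.Agent.H25.LF.Targets
import Pool.Agent.H17.BV.AD
import Pool.Agent.H56.BV.CL
import Pool.Agent.H58.BV.PM
import Pool.Agent.H58.BV.RO
import Pool.Agent.H27.LS.Mean

/-!
# (BVB) One dyadic block of prime moduli (MP_04ff0f_nt, board lpf_modules)
-/

set_option autoImplicit false

open Finset Real ArithmeticFunction

namespace Pool.Agent.H55.LF

open Pool.Agent.H25.LF
open Pool.Agent.H27.LS (TT chars mean_value pv CH hat)
open Pool.Agent.H30.BV (NX wx WX gg SC TX cv T_AD hd)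

theorem ad : T_AD :=
  Pool.Agent.H17.BV.AD.pf_AD (Pool.Agent.H56.BV.cl Pool.Agent.H58.BV.pm) Pool.Agent.H58.BV.ro

/-- one prime modulus -/
theorem one_prime {X : ℝ} (hX : 3 ≤ X) {l : ℕ} (hl : l.Prime) (hl2 : l ≠ 2) (hlX : (l : ℝ) ≤ X) :
    |WD X l - WX X * gg l| ≤ 2 / ((l : ℝ) - 1) * (SC X l + 8 * Real.log X ^ 2) := by
  have h := ad X l hX hlX hl.prime.squarefree (hl.odd_of_ne_two hl2)
  rw [hl.primeFactors, prod_singleton] at h
  have h1 : hd l = 2 / ((l : ℝ) - 1) := by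
    unfold hd
    rw [hl.primeFactors, card_singleton, pow_one, Nat.totient_prime hl,
      Nat.cast_sub hl.one_le, Nat.cast_one]
  rw [h1] at h
  exact h

/-- the primes of a finite set -/
def PS (L : Finset ℕ) : Finset Nat.Primes := L.subtype Nat.Prime

theorem mem_PS {L : Finset ℕ} {q : Nat.Primes} : q ∈ PS L ↔ (q : ℕ) ∈ L := Finset.mem_subtype

theorem sum_PS (L : Finset ℕ) (hL : ∀ l ∈ L, l.Prime) (f : ℕ → ℝ) :
    ∑ q ∈ PS L, f (q : ℕ) = ∑ l ∈ L, f l := Finset.sum_subtype_of_mem f hL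

theorem sum_ite_ne {ι : Type*} [Fintype ι] (a : ι) (g f : ι → ℝ) (s : Finset ι)
    (hs : ∀ χ, χ ∈ s ↔ χ ≠ a) (hg1 : g a = 0) (hg2 : ∀ χ, χ ≠ a → g χ = f χ) :
    ∑ χ, g χ = ∑ χ ∈ s, f χ := by
  rw [← sum_subset (subset_univ s) (f := g)]
  · exact sum_congr rfl fun χ hχ => hg2 χ ((hs χ).1 hχ)
  · intro χ _ hχ
    have h : χ = a := by
      by_contra hne
      exact hχ ((hs χ).2 hne)
    rw [h, hg1]

/-- the sum over the characters -/
theorem sum_SC (X : ℝ) (L : Finset ℕ) (hL : ∀ l ∈ L, l.Prime) :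
    ∑ l ∈ L, SC X l = ∑ x ∈ chars (PS L), ‖TT X (NX X) x‖ := by
  classical
  unfold chars
  rw [Finset.sum_sigma, ← sum_PS L hL (fun l => SC X l)]
  refine sum_congr rfl fun q _ => ?_
  have : NeZero (q : ℕ) := ⟨q.2.ne_zero⟩
  unfold SC
  rw [finsum_eq_sum_of_fintype]
  have h1 : ∀ χ : DirichletCharacter ℂ (q : ℕ), TX X (cv χ) = TT X (NX X) ⟨q, χ⟩ := by
    intro χ
    unfold TX TT
    refine sum_congr rfl fun n _ => ?_
    unfold wx cv
    push_cast
    ring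
  refine sum_ite_ne 1 _ _ _ (fun χ => by simp) (if_pos rfl) fun χ hχ => ?_
  refine (if_neg hχ).trans ?_
  rw [h1 χ]

/-- the numerical part -/
theorem numer {X K : ℝ} (hX : 30 ≤ X) (hK : 2 ≤ K) (hKX : 2 * K ≤ X) {U : ℕ}
    (hU : U = ⌊X ^ (1 / 16 : ℝ)⌋₊) :
    4 * Real.log X / K * (5 * (U * U : ℝ) * Real.log (NX X + 1) * ((2 * K) ^ 2 * pv (2 * K)) +
      (Nat.log 2 (NX X) + 1) *
        (4 * √X * Real.log (3 * X + 1) * ((2 * K) ^ 2 + 16 * (2 * K) * √(X / U) + 44 * √X)) +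
      2 * K * (8 * Real.log X ^ 2)) ≤
    20000 * Real.log X ^ 4 *
      (X ^ (1 / 8 : ℝ) * K ^ (3 / 2 : ℝ) + √X * K + X ^ (31 / 32 : ℝ) + X / K) := by
  have hX0 : 0 < X := by linarith
  have hK0 : 0 < K := by linarith
  set L := Real.log X with hLdef
  have hL1 : 1 ≤ L := by
    rw [hLdef, Real.le_log_iff_exp_le hX0]
    have := Real.exp_one_lt_d9
    linarith
  have hX1 : 1 ≤ X := by linarith
  -- bounds for `U`
  have hp : 1 ≤ X ^ (1 / 16 : ℝ) := Real.one_le_rpow hX1 (by norm_num)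
  have hU1 : 1 ≤ U := by
    rw [hU]
    exact Nat.le_floor (by exact_mod_cast hp)
  have hU0 : (0 : ℝ) < U := by exact_mod_cast hU1
  have hUle : (U : ℝ) ≤ X ^ (1 / 16 : ℝ) := by
    rw [hU]
    exact Nat.floor_le (by positivity)
  have hUge : X ^ (1 / 16 : ℝ) ≤ 2 * U := by
    have h1 : X ^ (1 / 16 : ℝ) < U + 1 := by
      rw [hU]
      exact Nat.lt_floor_add_one _
    have h2 : (1 : ℝ) ≤ U := by exact_mod_cast hU1
    linarith
  have hUU : (U * U : ℝ) ≤ X ^ (1 / 8 : ℝ) := by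
    calc (U * U : ℝ) ≤ X ^ (1 / 16 : ℝ) * X ^ (1 / 16 : ℝ) := by gcongr
      _ = X ^ (1 / 8 : ℝ) := by
          rw [← Real.rpow_add hX0]
          norm_num
  have hsU : √(X / U) ≤ 2 * X ^ (15 / 32 : ℝ) := by
    rw [Real.sqrt_le_left (by positivity)]
    rw [div_le_iff₀ hU0]
    have h1 : (2 * X ^ (15 / 32 : ℝ)) ^ 2 = 4 * X ^ (15 / 16 : ℝ) := by
      rw [mul_pow, ← Real.rpow_natCast (X ^ (15 / 32 : ℝ)), ← Real.rpow_mul hX0.le]
      norm_num
    rw [h1]
    have h2 : X = X ^ (15 / 16 : ℝ) * X ^ (1 / 16 : ℝ) := by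
      rw [← Real.rpow_add hX0]
      norm_num
    calc X = X ^ (15 / 16 : ℝ) * X ^ (1 / 16 : ℝ) := h2
      _ ≤ X ^ (15 / 16 : ℝ) * (2 * U) := by gcongr
      _ ≤ 4 * X ^ (15 / 16 : ℝ) * U := by
          have : 0 ≤ X ^ (15 / 16 : ℝ) * U := by positivity
          linarith
  -- bounds for `N`
  have hN : (NX X : ℝ) ≤ 3 * X + 1 := by
    unfold NX
    exact (Nat.ceil_lt_add_one (by positivity)).le
  have hN3 : 3 * X ≤ (NX X : ℝ) := by
    unfold NX
    exact Nat.le_ceil _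
  have hlog2 : ∀ y : ℝ, 0 < y → y ≤ 3 * X + 2 → Real.log y ≤ 2 * L := by
    intro y hy0 hy
    have h1 : y ≤ X ^ 2 := by nlinarith
    have h2 := Real.log_le_log hy0 h1
    rw [Real.log_pow] at h2
    exact_mod_cast h2
  have hlN : Real.log (NX X + 1) ≤ 2 * L := hlog2 _ (by positivity) (by linarith)
  have hl3 : Real.log (3 * X + 1) ≤ 2 * L := hlog2 _ (by positivity) (by linarith)
  have hlN0 : 0 ≤ Real.log ((NX X : ℝ) + 1) := Real.log_nonneg (by linarith)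
  have hl30 : 0 ≤ Real.log (3 * X + 1) := Real.log_nonneg (by linarith)
  have hNlog : ((Nat.log 2 (NX X) : ℕ) : ℝ) + 1 ≤ 5 * L := by
    have hN0 : NX X ≠ 0 := by
      intro h
      rw [h, Nat.cast_zero] at hN3
      linarith
    have h1 : (2 : ℝ) ^ (Nat.log 2 (NX X)) ≤ NX X := by
      exact_mod_cast Nat.pow_log_le_self 2 hN0
    have h2 := Real.log_le_log (by positivity) h1
    rw [Real.log_pow] at h2
    have h3 : Real.log (NX X) ≤ 2 * L := hlog2 _ (by linarith) (by linarith)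
    have h4 : 1 / 2 ≤ Real.log 2 := by
      have := Real.log_two_gt_d9
      linarith
    have h5 : (0 : ℝ) ≤ ((Nat.log 2 (NX X) : ℕ) : ℝ) := Nat.cast_nonneg _
    nlinarith
  -- bounds for `pv`
  have hlK : Real.log (2 * K) ≤ L := Real.log_le_log (by positivity) hKX
  have hlK0 : 0 ≤ Real.log (2 * K) := Real.log_nonneg (by linarith)
  have hs2 : √(2 * K) ≤ 2 * √K := by
    rw [Real.sqrt_le_left (by positivity), mul_pow, Real.sq_sqrt hK0.le]
    linarith
  have hpv : pv (2 * K) ≤ 4 * √K * L := by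
    unfold pv
    calc √(2 * K) * (1 + Real.log (2 * K)) ≤ 2 * √K * (L + L) := by gcongr
      _ = 4 * √K * L := by ring
  have hpv0 : 0 ≤ pv (2 * K) := by
    unfold pv
    positivity
  -- combination
  have hK32 : K ^ (3 / 2 : ℝ) = K * √K := by
    rw [Real.sqrt_eq_rpow, ← Real.rpow_one_add' hK0.le (by norm_num)]
    norm_num
  have hX31 : √X * X ^ (15 / 32 : ℝ) = X ^ (31 / 32 : ℝ) := by
    rw [Real.sqrt_eq_rpow, ← Real.rpow_add hX0]
    norm_num
  have hsX : √X * √X = X := Real.mul_self_sqrt hX0.le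
  have hX31' : 1 ≤ X ^ (31 / 32 : ℝ) := Real.one_le_rpow hX1 (by norm_num)
  have hA : 5 * (U * U : ℝ) * Real.log (NX X + 1) * ((2 * K) ^ 2 * pv (2 * K)) ≤
      K * (160 * L ^ 2 * (X ^ (1 / 8 : ℝ) * (K * √K))) := by
    calc 5 * (U * U : ℝ) * Real.log (NX X + 1) * ((2 * K) ^ 2 * pv (2 * K))
        ≤ 5 * X ^ (1 / 8 : ℝ) * (2 * L) * ((2 * K) ^ 2 * (4 * √K * L)) := by gcongr
      _ = _ := by ring
  have hB : (Nat.log 2 (NX X) + 1) *
        (4 * √X * Real.log (3 * X + 1) * ((2 * K) ^ 2 + 16 * (2 * K) * √(X / U) + 44 * √X)) ≤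
      K * (160 * L ^ 2 * (√X * K) + 2560 * L ^ 2 * X ^ (31 / 32 : ℝ) +
        1760 * L ^ 2 * (X / K)) := by
    calc (Nat.log 2 (NX X) + 1) *
        (4 * √X * Real.log (3 * X + 1) * ((2 * K) ^ 2 + 16 * (2 * K) * √(X / U) + 44 * √X))
        ≤ (5 * L) * (4 * √X * (2 * L) *
          ((2 * K) ^ 2 + 16 * (2 * K) * (2 * X ^ (15 / 32 : ℝ)) + 44 * √X)) := by gcongr
      _ = K * (160 * L ^ 2 * (√X * K) + 2560 * L ^ 2 * (√X * X ^ (15 / 32 : ℝ))) +
          1760 * L ^ 2 * (√X * √X) := by ring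
      _ = _ := by
          rw [hX31, hsX]
          field_simp
  have hC : 2 * K * (8 * L ^ 2) ≤ K * (16 * L ^ 2 * X ^ (31 / 32 : ℝ)) := by
    have : L ^ 2 * 1 ≤ L ^ 2 * X ^ (31 / 32 : ℝ) := by gcongr
    nlinarith
  rw [hK32]
  set a := X ^ (1 / 8 : ℝ) * (K * √K) with ha
  set b := √X * K with hb
  set g := X ^ (31 / 32 : ℝ) with hg
  set h := X / K with hh
  have ha0 : 0 ≤ a := by positivity
  have hb0 : 0 ≤ b := by positivity
  have hg0 : 0 ≤ g := by positivity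
  have hh0 : 0 ≤ h := by positivity
  have hL0 : 0 ≤ L := by linarith
  have hsum := add_le_add (add_le_add hA hB) hC
  have h1 : 4 * L / K * (5 * (U * U : ℝ) * Real.log (NX X + 1) * ((2 * K) ^ 2 * pv (2 * K)) +
      (Nat.log 2 (NX X) + 1) *
        (4 * √X * Real.log (3 * X + 1) * ((2 * K) ^ 2 + 16 * (2 * K) * √(X / U) + 44 * √X)) +
      2 * K * (8 * L ^ 2)) ≤ 4 * L / K * (K * (160 * L ^ 2 * a) +
        K * (160 * L ^ 2 * b + 2560 * L ^ 2 * g + 1760 * L ^ 2 * h) + K * (16 * L ^ 2 * g)) :=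
    mul_le_mul_of_nonneg_left hsum (by positivity)
  refine h1.trans ?_
  have h2 : 4 * L / K * (K * (160 * L ^ 2 * a) +
        K * (160 * L ^ 2 * b + 2560 * L ^ 2 * g + 1760 * L ^ 2 * h) + K * (16 * L ^ 2 * g)) =
      L ^ 3 * (640 * a + 640 * b + 10304 * g + 7040 * h) := by
    field_simp
    ring
  rw [h2]
  calc L ^ 3 * (640 * a + 640 * b + 10304 * g + 7040 * h)
      ≤ L ^ 4 * (20000 * a + 20000 * b + 20000 * g + 20000 * h) := by
        have h3 : L ^ 3 ≤ L ^ 4 := pow_le_pow_right₀ hL1 (by norm_num)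
        have h4 : 640 * a + 640 * b + 10304 * g + 7040 * h ≤
            20000 * a + 20000 * b + 20000 * g + 20000 * h := by linarith
        exact mul_le_mul h3 h4 (by positivity) (by positivity)
    _ = _ := by ring

theorem pf_BVB : T_BVB := by
  refine ⟨20000, by norm_num, fun X K hX hK hKX => ?_⟩
  have hX0 : 0 < X := by linarith
  have hK0 : 0 < K := by linarith
  have hX1 : 1 ≤ X := by linarith
  set L := Real.log X with hLdef
  have hL1 : 1 ≤ L := by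
    rw [hLdef, Real.le_log_iff_exp_le hX0]
    have := Real.exp_one_lt_d9
    linarith
  set U := ⌊X ^ (1 / 16 : ℝ)⌋₊ with hU
  refine le_trans ?_ (numer hX hK hKX hU)
  set F := (PR (2 * K)).filter (fun l : ℕ => K < (l : ℝ)) with hF
  have hFp : ∀ l ∈ F, l.Prime ∧ K < (l : ℝ) ∧ (l : ℝ) ≤ 2 * K := by
    intro l hl
    obtain ⟨h1, h2⟩ := mem_filter.1 hl
    obtain ⟨h3, h4⟩ := mem_filter.1 h1
    exact ⟨h4, h2, (Nat.le_floor_iff (by positivity)).1 (mem_Icc.1 h3).2⟩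
  have hcard : (F.card : ℝ) ≤ 2 * K := by
    have h1 : F.card ≤ ⌊2 * K⌋₊ := by
      calc F.card ≤ (Icc 1 ⌊2 * K⌋₊).card :=
            card_le_card ((filter_subset _ _).trans (filter_subset _ _))
        _ = ⌊2 * K⌋₊ := by simp
    calc (F.card : ℝ) ≤ (⌊2 * K⌋₊ : ℝ) := by exact_mod_cast h1
      _ ≤ 2 * K := Nat.floor_le (by positivity)
  have hp : 1 ≤ X ^ (1 / 16 : ℝ) := Real.one_le_rpow hX1 (by norm_num)
  have hU1 : 1 ≤ U := Nat.le_floor (by exact_mod_cast hp)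
  have hUX : 3 * (U : ℝ) ≤ X := by
    have h1 : (U : ℝ) ≤ X ^ (1 / 16 : ℝ) := Nat.floor_le (by positivity)
    have h2 : X ^ (1 / 16 : ℝ) ≤ X ^ (1 / 2 : ℝ) := Real.rpow_le_rpow_of_exponent_le hX1 (by norm_num)
    rw [← Real.sqrt_eq_rpow] at h2
    have h3 : 3 ≤ √X := Real.le_sqrt_of_sq_le (by linarith)
    have h4 : √X * √X = X := Real.mul_self_sqrt hX0.le
    nlinarith
  have hN : 3 * X ≤ (NX X : ℝ) := Nat.le_ceil _
  have hmv := mean_value (PS F) (K := 2 * K) (by linarith)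
    (fun q hq => (hFp q (mem_PS.1 hq)).2.2) hU1 hX1 hN hUX
  rw [← sum_SC X F (fun l hl => (hFp l hl).1)] at hmv
  have h1 : SL K (2 * K) (fun l => |WD X l - WX X * gg l|) ≤
      ∑ l ∈ F, 4 * L / K * (SC X l + 8 * L ^ 2) := by
    unfold SL
    refine sum_le_sum fun l hl => ?_
    obtain ⟨hl1, hl2, hl3⟩ := hFp l hl
    have hl4 : (2 : ℝ) < l := by linarith
    have hlne : l ≠ 2 := by
      rintro rfl
      norm_num at hl4
    have hlX : (l : ℝ) ≤ X := hl3.trans hKX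
    have h2 := one_prime (by linarith : (3 : ℝ) ≤ X) hl1 hlne hlX
    have hll : Real.log l ≤ L := Real.log_le_log (by linarith) hlX
    have hll0 : 0 ≤ Real.log l := Real.log_nonneg (by linarith)
    have h3 : 0 ≤ SC X l + 8 * L ^ 2 :=
      add_nonneg (Pool.Agent.H17.BV.AD.SC_nonneg X l) (by positivity)
    have h4 : 2 / ((l : ℝ) - 1) ≤ 4 / K := by
      rw [div_le_div_iff₀ (by linarith) hK0]
      linarith
    calc Real.log l * |WD X l - WX X * gg l| ≤ L * (4 / K * (SC X l + 8 * L ^ 2)) := by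
          refine mul_le_mul hll (h2.trans (mul_le_mul_of_nonneg_right h4 h3)) (abs_nonneg _)
            (by linarith)
      _ = _ := by ring
  refine h1.trans ?_
  rw [← mul_sum, sum_add_distrib, sum_const, nsmul_eq_mul]
  refine mul_le_mul_of_nonneg_left (add_le_add hmv ?_) (by positivity)
  exact mul_le_mul_of_nonneg_right hcard (by positivity)

end Pool.Agent.H55.LF
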