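import Pool.Agent.H25.LF.Targets

/-!
# (PNT) Landau's deduction of the prime number theorem (MP_04ff0f_nt, board lpf_modules)
-/

set_option autoImplicit false

open Finset Real ArithmeticFunction

namespace Pool.Agent.H55.LF

open Pool.Agent.H25.LF

/-- the Möbius function with real values -/
noncomputable def mu : ArithmeticFunction ℝ := ((moebius : ArithmeticFunction ℤ) :
  ArithmeticFunction ℝ)

/-- the function `log - d + c` -/
noncomputable def gA (c : ℝ) : ArithmeticFunction ℝ :=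
  ⟨fun n => if n = 0 then 0 else Real.log n - (n.divisors.card : ℝ) + c, if_pos rfl⟩

theorem mu_apply (n : ℕ) : mu n = ((moebius n : ℤ) : ℝ) := rfl

theorem abs_mu_le (n : ℕ) : |mu n| ≤ 1 := by
  rw [mu_apply]
  have h := abs_moebius_le_one (n := n)
  exact_mod_cast h

theorem gA_apply (c : ℝ) {n : ℕ} (hn : n ≠ 0) :
    gA c n = Real.log n - (n.divisors.card : ℝ) + c := if_neg hn

theorem mul_gA (c : ℝ) (n : ℕ) (hn : n ≠ 0) :
    (mu * gA c) n = ArithmeticFunction.vonMangoldt n - 1 + if n = 1 then c else 0 := by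
  have h1 : mu * ArithmeticFunction.log = ArithmeticFunction.vonMangoldt :=
    moebius_mul_log_eq_vonMangoldt
  have h2 : mu * ((zeta : ArithmeticFunction ℕ) : ArithmeticFunction ℝ) = 1 :=
    coe_moebius_mul_coe_zeta
  have h3 : mu * ((sigma 0 : ArithmeticFunction ℕ) : ArithmeticFunction ℝ) =
      ((zeta : ArithmeticFunction ℕ) : ArithmeticFunction ℝ) := by
    rw [← zeta_mul_pow_eq_sigma, pow_zero_eq_zeta, natCoe_mul, ← mul_assoc, h2, one_mul]
  have e1 : ArithmeticFunction.vonMangoldt n = ∑ x ∈ n.divisorsAntidiagonal,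
      mu x.1 * Real.log x.2 := by
    rw [← h1, mul_apply]
    exact sum_congr rfl fun x _ => by rw [log_apply]
  have e2 : (1 : ℝ) = ∑ x ∈ n.divisorsAntidiagonal, mu x.1 * (x.2.divisors.card : ℝ) := by
    have h4 : ((zeta : ArithmeticFunction ℕ) : ArithmeticFunction ℝ) n = 1 := by
      rw [natCoe_apply, zeta_apply_ne hn, Nat.cast_one]
    rw [← h4, ← h3, mul_apply]
    exact sum_congr rfl fun x _ => by rw [natCoe_apply, sigma_zero_apply]
  have e3 : (if n = 1 then c else 0) = ∑ x ∈ n.divisorsAntidiagonal, mu x.1 * c := by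
    have h4 : (1 : ArithmeticFunction ℝ) n = ∑ x ∈ n.divisorsAntidiagonal, mu x.1 := by
      rw [← h2, mul_apply]
      refine sum_congr rfl fun x hx => ?_
      have hx2 : x.2 ≠ 0 := by
        intro h
        have h5 := (Nat.mem_divisorsAntidiagonal.1 hx)
        rw [h, mul_zero] at h5
        exact h5.2 h5.1.symm
      rw [natCoe_apply, zeta_apply_ne hx2, Nat.cast_one, mul_one]
    rw [← sum_mul, ← h4, one_apply]
    split_ifs
    · rw [one_mul]
    · rw [zero_mul]
  rw [e1, e2, e3, ← sum_sub_distrib, ← sum_add_distrib, mul_apply]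
  refine sum_congr rfl fun x hx => ?_
  have hx2 : x.2 ≠ 0 := by
    intro h
    have h5 := (Nat.mem_divisorsAntidiagonal.1 hx)
    rw [h, mul_zero] at h5
    exact h5.2 h5.1.symm
  rw [gA_apply c hx2]
  ring

/-- the sum of `g` -/
noncomputable def GG (c : ℝ) (M : ℕ) : ℝ := ∑ e ∈ Ioc 0 M, gA c e

/-- Mertens' function -/
noncomputable def MM (M : ℕ) : ℝ := ∑ d ∈ Ioc 0 M, mu d

/-- Landau's identity. -/
theorem landau (c : ℝ) (N : ℕ) (hN : 1 ≤ N) :
    ∑ n ∈ Ioc 0 N, ArithmeticFunction.vonMangoldt n - N + c =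
      ∑ d ∈ Ioc 0 N, mu d * GG c (N / d) := by
  have h1 := sum_Ioc_mul_eq_sum_sum mu (gA c) N
  unfold GG
  rw [← h1]
  have h2 : ∑ n ∈ Ioc 0 N, (mu * gA c) n =
      ∑ n ∈ Ioc 0 N, (ArithmeticFunction.vonMangoldt n - 1 + if n = 1 then c else 0) :=
    sum_congr rfl fun n hn => mul_gA c n (by have := (mem_Ioc.1 hn).1; omega)
  rw [h2, sum_add_distrib, sum_sub_distrib, sum_const, Nat.card_Ioc, Nat.sub_zero, nsmul_eq_mul,
    mul_one, Finset.sum_ite_eq' (Ioc 0 N) 1, if_pos (mem_Ioc.2 ⟨by omega, hN⟩)]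

/-- The hyperbola method. -/
theorem hyperb (c : ℝ) (N B : ℕ) (hB : 1 ≤ B) :
    ∑ d ∈ Ioc 0 N, mu d * GG c (N / d) = ∑ d ∈ Ioc 0 (N / B), mu d * GG c (N / d) +
      ∑ e ∈ Ioc 0 B, gA c e * (MM (N / e) - MM (N / B)) := by
  have hD : N / B ≤ N := Nat.div_le_self _ _
  have h1 : ∑ d ∈ Ioc 0 N, mu d * GG c (N / d) = ∑ d ∈ Ioc 0 (N / B), mu d * GG c (N / d) +
      ∑ d ∈ Ioc (N / B) N, mu d * GG c (N / d) := by
    rw [← Finset.sum_union (Finset.Ioc_disjoint_Ioc_of_le le_rfl),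
      Finset.Ioc_union_Ioc_eq_Ioc (Nat.zero_le _) hD]
  rw [h1]
  congr 1
  have h2 : ∀ d ∈ Ioc (N / B) N, mu d * GG c (N / d) =
      ∑ e ∈ Ioc 0 B, if d ≤ N / e then mu d * gA c e else 0 := by
    intro d hd
    obtain ⟨hd1, hd2⟩ := mem_Ioc.1 hd
    have hd0 : 0 < d := lt_of_le_of_lt (Nat.zero_le _) hd1
    have hNd : N / d ≤ B := by
      have h3 : N / d < B := by
        rw [Nat.div_lt_iff_lt_mul hd0]
        rw [Nat.div_lt_iff_lt_mul (by omega)] at hd1
        rw [mul_comm]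
        exact hd1
      exact h3.le
    unfold GG
    rw [mul_sum, ← sum_filter]
    refine sum_congr ?_ fun _ _ => rfl
    ext e
    rw [mem_filter, mem_Ioc, mem_Ioc]
    constructor
    · rintro ⟨he1, he2⟩
      refine ⟨⟨he1, he2.trans hNd⟩, ?_⟩
      rw [Nat.le_div_iff_mul_le he1]
      rw [Nat.le_div_iff_mul_le hd0] at he2
      rw [mul_comm]
      exact he2
    · rintro ⟨⟨he1, _⟩, he3⟩
      refine ⟨he1, ?_⟩
      rw [Nat.le_div_iff_mul_le hd0]
      rw [Nat.le_div_iff_mul_le he1] at he3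
      rw [mul_comm]
      exact he3
  rw [sum_congr rfl h2, sum_comm]
  refine sum_congr rfl fun e he => ?_
  obtain ⟨he1, he2⟩ := mem_Ioc.1 he
  have h4 : N / B ≤ N / e := Nat.div_le_div_left he2 he1
  have h5 : MM (N / e) = MM (N / B) + ∑ d ∈ Ioc (N / B) (N / e), mu d := by
    unfold MM
    rw [← Finset.sum_union (Finset.Ioc_disjoint_Ioc_of_le le_rfl),
      Finset.Ioc_union_Ioc_eq_Ioc (Nat.zero_le _) h4]
  rw [h5, add_sub_cancel_left, mul_sum, ← sum_filter]
  have h6 : (Ioc (N / B) N).filter (fun d => d ≤ N / e) = Ioc (N / B) (N / e) := by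
    ext d
    rw [mem_filter, mem_Ioc, mem_Ioc]
    have h7 : N / e ≤ N := Nat.div_le_self _ _
    constructor
    · rintro ⟨⟨h8, _⟩, h9⟩
      exact ⟨h8, h9⟩
    · rintro ⟨h8, h9⟩
      exact ⟨⟨h8, h9.trans h7⟩, h9⟩
  rw [h6]
  exact sum_congr rfl fun d _ => mul_comm _ _

theorem sum_inv_sqrt (D : ℕ) : ∑ d ∈ Ioc 0 D, 1 / √(d : ℝ) ≤ 2 * √(D : ℝ) := by
  induction D with
  | zero => simp
  | succ D ih =>
    rw [Finset.sum_Ioc_succ_top (Nat.zero_le _)]
    have h0 : (0 : ℝ) ≤ D := Nat.cast_nonneg D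
    have h1 : (0 : ℝ) < D + 1 := by linarith
    have hs : 0 < √((D : ℝ) + 1) := Real.sqrt_pos.2 h1
    have h2 : √((D : ℝ) + 1) ^ 2 = D + 1 := Real.sq_sqrt h1.le
    have h3 : √(D : ℝ) ^ 2 = D := Real.sq_sqrt h0
    have h4 : 0 ≤ √(D : ℝ) := Real.sqrt_nonneg _
    have h5 : 1 / √((D : ℝ) + 1) ≤ 2 * √((D : ℝ) + 1) - 2 * √(D : ℝ) := by
      rw [div_le_iff₀ hs]
      nlinarith [sq_nonneg (√((D : ℝ) + 1) - √(D : ℝ))]
    push_cast
    linarith

theorem pf_PNT (hDIV : T_DIV) (hMU1 : T_MU1) : T_PNT := by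
  intro δ hδ
  obtain ⟨C₀, c, hC₀⟩ := hDIV
  set C := max C₀ 0 with hC
  have hC0 : 0 ≤ C := le_max_right _ _
  have hG : ∀ M : ℕ, 1 ≤ M → |GG c M| ≤ C * √(M : ℝ) := by
    intro M hM
    have h1 := hC₀ (M : ℝ) (by exact_mod_cast hM)
    rw [Nat.floor_natCast] at h1
    have h2 : GG c M = ∑ n ∈ Icc 1 M, (Real.log n - (n.divisors.card : ℝ) + c) := by
      unfold GG
      have e : Ioc 0 M = Icc 1 M := by
        ext n
        rw [mem_Ioc, mem_Icc]
        omega
      rw [e]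
      exact sum_congr rfl fun n hn => gA_apply c (by have := (mem_Icc.1 hn).1; omega)
    rw [h2]
    exact h1.trans (mul_le_mul_of_nonneg_right (le_max_left _ _) (Real.sqrt_nonneg _))
  -- the choice of `B`
  obtain ⟨B₀, hB₀⟩ := exists_nat_gt ((8 * C / δ) ^ 2)
  set B := B₀ + 1 with hBdef
  have hB1 : 1 ≤ B := by omega
  have hBr : (0 : ℝ) < B := by exact_mod_cast hB1
  have hsB : 8 * C / δ ≤ √(B : ℝ) := by
    apply Real.le_sqrt_of_sq_le
    rw [hBdef]
    push_cast
    linarith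
  have hsBpos : 0 < √(B : ℝ) := Real.sqrt_pos.2 hBr
  set S := ∑ e ∈ Ioc 0 B, |gA c e| with hS
  have hS0 : 0 ≤ S := sum_nonneg fun _ _ => abs_nonneg _
  set η := δ / (8 * (S + 1)) with hη
  have hη0 : 0 < η := by positivity
  obtain ⟨x₁, hx₁⟩ := hMU1 η hη0
  have hM : ∀ M : ℕ, x₁ ≤ M → |MM M| ≤ η * M := by
    intro M hM
    have h1 := hx₁ (M : ℝ) hM
    rw [Nat.floor_natCast] at h1
    have e : Ioc 0 M = Icc 1 M := by
      ext n
      rw [mem_Ioc, mem_Icc]
      omega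
    unfold MM
    rw [e]
    exact h1
  obtain ⟨X₁, hX₁⟩ := exists_nat_gt x₁
  refine ⟨max ((B * (X₁ + 1) : ℕ) : ℝ) (max (4 * (|c| + 1) / δ) 1), fun x hx => ?_⟩
  have hxa : ((B * (X₁ + 1) : ℕ) : ℝ) ≤ x := (le_max_left _ _).trans hx
  have hxb : 4 * (|c| + 1) / δ ≤ x := ((le_max_left _ _).trans (le_max_right _ _)).trans hx
  have hxc : 1 ≤ x := ((le_max_right _ _).trans (le_max_right _ _)).trans hx
  have hx0 : 0 ≤ x := by linarith
  set N := ⌊x⌋₊ with hN
  have hN1 : 1 ≤ N := Nat.le_floor (by exact_mod_cast hxc)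
  have hNx : (N : ℝ) ≤ x := Nat.floor_le hx0
  have hNx' : x < N + 1 := Nat.lt_floor_add_one x
  have hNB : B * (X₁ + 1) ≤ N := Nat.le_floor hxa
  have hpsi : Chebyshev.psi x = ∑ n ∈ Ioc 0 N, ArithmeticFunction.vonMangoldt n := rfl
  have hmain := landau c N hN1
  rw [hyperb c N B hB1] at hmain
  -- first part
  have hD : X₁ + 1 ≤ N / B := by
    rw [Nat.le_div_iff_mul_le (by omega), mul_comm]
    exact hNB
  have hA : |∑ d ∈ Ioc 0 (N / B), mu d * GG c (N / d)| ≤ δ / 4 * x := by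
    calc |∑ d ∈ Ioc 0 (N / B), mu d * GG c (N / d)|
        ≤ ∑ d ∈ Ioc 0 (N / B), |mu d * GG c (N / d)| := abs_sum_le_sum_abs _ _
      _ ≤ ∑ d ∈ Ioc 0 (N / B), C * √x * (1 / √(d : ℝ)) := by
          refine sum_le_sum fun d hd => ?_
          obtain ⟨hd1, hd2⟩ := mem_Ioc.1 hd
          have hdN : d ≤ N := hd2.trans (Nat.div_le_self _ _)
          have h1 : 1 ≤ N / d := (Nat.one_le_div_iff hd1).2 hdN
          have hdr : (0 : ℝ) < d := by exact_mod_cast hd1
          have h2 : √((N / d : ℕ) : ℝ) ≤ √x * (1 / √(d : ℝ)) := by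
            rw [mul_one_div, ← Real.sqrt_div hx0]
            apply Real.sqrt_le_sqrt
            exact Nat.cast_div_le.trans (div_le_div_of_nonneg_right hNx hdr.le)
          rw [abs_mul]
          calc |mu d| * |GG c (N / d)| ≤ 1 * (C * √((N / d : ℕ) : ℝ)) :=
                mul_le_mul (abs_mu_le d) (hG _ h1) (abs_nonneg _) zero_le_one
            _ ≤ 1 * (C * (√x * (1 / √(d : ℝ)))) := by gcongr
            _ = _ := by ring
      _ = C * √x * ∑ d ∈ Ioc 0 (N / B), 1 / √(d : ℝ) := by rw [mul_sum]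
      _ ≤ C * √x * (2 * √((N / B : ℕ) : ℝ)) := by
          gcongr
          exact sum_inv_sqrt _
      _ ≤ C * √x * (2 * (√x / √(B : ℝ))) := by
          gcongr
          rw [← Real.sqrt_div hx0]
          apply Real.sqrt_le_sqrt
          exact Nat.cast_div_le.trans (div_le_div_of_nonneg_right hNx hBr.le)
      _ = 2 * C / √(B : ℝ) * x := by
          have : √x * √x = x := Real.mul_self_sqrt hx0
          calc C * √x * (2 * (√x / √(B : ℝ))) = 2 * C / √(B : ℝ) * (√x * √x) := by ring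
            _ = _ := by rw [this]
      _ ≤ δ / 4 * x := by
          refine mul_le_mul_of_nonneg_right ?_ hx0
          rw [div_le_iff₀ hsBpos]
          rw [div_le_iff₀ hδ] at hsB
          linarith
  -- second part
  have hBsum : |∑ e ∈ Ioc 0 B, gA c e * (MM (N / e) - MM (N / B))| ≤ δ / 4 * x := by
    calc |∑ e ∈ Ioc 0 B, gA c e * (MM (N / e) - MM (N / B))|
        ≤ ∑ e ∈ Ioc 0 B, |gA c e * (MM (N / e) - MM (N / B))| := abs_sum_le_sum_abs _ _
      _ ≤ ∑ e ∈ Ioc 0 B, |gA c e| * (2 * η * x) := by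
          refine sum_le_sum fun e he => ?_
          obtain ⟨he1, he2⟩ := mem_Ioc.1 he
          rw [abs_mul]
          gcongr
          have h1 : ∀ M : ℕ, X₁ + 1 ≤ M → M ≤ N → |MM M| ≤ η * x := by
            intro M hM1 hM2
            have h2 : x₁ ≤ M := by
              have : (X₁ : ℝ) ≤ M := by exact_mod_cast (by omega : X₁ ≤ M)
              linarith
            refine (hM M h2).trans ?_
            gcongr
            have : (M : ℝ) ≤ N := by exact_mod_cast hM2
            linarith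
          have h3 : X₁ + 1 ≤ N / e := hD.trans (Nat.div_le_div_left he2 he1)
          have h4 := h1 _ h3 (Nat.div_le_self _ _)
          have h5 := h1 _ hD (Nat.div_le_self _ _)
          calc |MM (N / e) - MM (N / B)| ≤ |MM (N / e)| + |MM (N / B)| := abs_sub _ _
            _ ≤ η * x + η * x := add_le_add h4 h5
            _ = _ := by ring
      _ = S * (2 * η * x) := by rw [hS, sum_mul]
      _ ≤ δ / 4 * x := by
          have h1 : S * (2 * η) ≤ δ / 4 := by
            rw [hη]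
            have h2 : S * (2 * (δ / (8 * (S + 1)))) = δ / 4 * (S / (S + 1)) := by
              field_simp
              ring
            rw [h2]
            have h3 : S / (S + 1) ≤ 1 := by
              rw [div_le_one (by linarith)]
              linarith
            calc δ / 4 * (S / (S + 1)) ≤ δ / 4 * 1 := by gcongr
              _ = _ := mul_one _
          calc S * (2 * η * x) = S * (2 * η) * x := by ring
            _ ≤ δ / 4 * x := by gcongr
  have hc : |c| + 1 ≤ δ / 4 * x := by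
    rw [div_le_iff₀ hδ] at hxb
    linarith
  rw [hpsi]
  have e : ∑ n ∈ Ioc 0 N, ArithmeticFunction.vonMangoldt n - x =
      (∑ d ∈ Ioc 0 (N / B), mu d * GG c (N / d) +
        ∑ e ∈ Ioc 0 B, gA c e * (MM (N / e) - MM (N / B))) + ((N : ℝ) - x) - c := by
    rw [← hmain]
    ring
  rw [e]
  have h6 : |(N : ℝ) - x| ≤ 1 := by
    rw [abs_le]
    constructor <;> linarith
  have h7 := abs_sub ((∑ d ∈ Ioc 0 (N / B), mu d * GG c (N / d) +
        ∑ e ∈ Ioc 0 B, gA c e * (MM (N / e) - MM (N / B))) + ((N : ℝ) - x)) c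
  have h8 := abs_add_le (∑ d ∈ Ioc 0 (N / B), mu d * GG c (N / d) +
        ∑ e ∈ Ioc 0 B, gA c e * (MM (N / e) - MM (N / B))) ((N : ℝ) - x)
  have h9 := abs_add_le (∑ d ∈ Ioc 0 (N / B), mu d * GG c (N / d))
        (∑ e ∈ Ioc 0 B, gA c e * (MM (N / e) - MM (N / B)))
  have h10 : 0 ≤ δ * x := by positivity
  linarith

end Pool.Agent.H55.LF
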